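import Pool.Agent.H71.WE.Targets

/-!
# Rows CTR, RES, E0, DT: contraction, residual cuts and trivial cases
-/

set_option autoImplicit false

namespace Pool.Agent.H50.WE

open Finset Pool.Agent.H71.WE

section
variable {V E W : Type} [Fintype V] [DecidableEq V] [DecidableEq E] [Fintype W] [DecidableEq W]

theorem mem_pre (f : V → W) (X : Finset W) (v : V) : v ∈ pre f X ↔ f v ∈ X := by
  unfold pre
  rw [mem_filter]
  exact ⟨fun h => h.2, fun h => ⟨mem_univ v, h⟩⟩

theorem cr_mp (G : Gr V E) (f : V → W) (X : Finset W) (e : E) :
    Cr (mp G f) X e ↔ Cr G (pre f X) e := by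
  unfold Cr
  rw [mem_pre, mem_pre]
  rfl

theorem ctr_in {S : Finset V} {v : V} (h : v ∈ S) : ctr S v = none := by
  unfold ctr
  rw [dif_pos h]

theorem ctr_out {S : Finset V} {v : V} (h : v ∉ S) : ctr S v = some ⟨v, h⟩ := by
  unfold ctr
  rw [dif_neg h]

end

theorem pf_CTR : T_CTR := by
  intro V E _ _ _ G
  refine ⟨?_, ?_, ?_⟩
  · intro W _ _ f A X
    unfold cn
    congr 1
    exact filter_congr fun e _ => cr_mp G f X e
  · intro W _ _ f F a b h X ha hb
    obtain ⟨e, he, hc⟩ := h (pre f X) ((mem_pre f X a).2 ha) (fun h => hb ((mem_pre f X b).1 h))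
    exact ⟨e, he, (cr_mp G f X e).2 hc⟩
  · intro S hS
    have hsurj : ∀ z : Option {x : V // x ∉ S}, ∃ v, ctr S v = z := by
      intro z
      rcases z with _ | z
      · obtain ⟨s, hs⟩ := hS
        exact ⟨s, ctr_in hs⟩
      · exact ⟨z.1, ctr_out z.2⟩
    refine ⟨?_, ?_, ?_, ?_, ?_⟩
    · intro X hX
      refine ⟨X.image (ctr S), ?_⟩
      ext v
      rw [mem_pre, mem_image]
      constructor
      · rintro ⟨x, hx, hxv⟩
        by_cases hv : v ∈ S
        · rw [ctr_in hv] at hxv
          have hxS : x ∈ S := by
            by_contra hcon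
            rw [ctr_out hcon] at hxv
            exact absurd hxv (by simp)
          rcases hX with h | h
          · exact h hv
          · exact absurd hx (Finset.disjoint_left.1 h hxS)
        · rw [ctr_out hv] at hxv
          have hxS : x ∉ S := by
            intro hcon
            rw [ctr_in hcon] at hxv
            exact absurd hxv (by simp)
          rw [ctr_out hxS] at hxv
          have h1 := congrArg Subtype.val (Option.some.inj hxv)
          change x = v at h1
          rw [← h1]
          exact hx
      · intro hv
        exact ⟨v, hv, rfl⟩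
    · intro Z
      by_cases h : (none : Option {x : V // x ∉ S}) ∈ Z
      · left
        intro v hv
        rw [mem_pre, ctr_in hv]
        exact h
      · right
        rw [Finset.disjoint_left]
        intro v hv hv'
        rw [mem_pre, ctr_in hv] at hv'
        exact h hv'
    · intro Z
      constructor
      · rintro ⟨v, hv⟩
        exact ⟨_, (mem_pre _ _ _).1 hv⟩
      · rintro ⟨z, hz⟩
        obtain ⟨v, hv⟩ := hsurj z
        refine ⟨v, (mem_pre _ _ _).2 ?_⟩
        rw [hv]
        exact hz
    · intro Z
      constructor
      · intro h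
        rw [eq_univ_iff_forall]
        intro z
        obtain ⟨v, hv⟩ := hsurj z
        rw [← hv, ← mem_pre, h]
        exact mem_univ v
      · intro h
        rw [eq_univ_iff_forall]
        intro v
        rw [mem_pre, h]
        exact mem_univ _
    · intro h2
      rw [Fintype.card_option]
      have h3 : Fintype.card {x : V // x ∉ S} = Sᶜ.card := by
        rw [Fintype.card_subtype]
        congr 1
        ext v
        simp
      rw [h3, card_compl]
      have h4 : S.card ≤ Fintype.card V := card_le_univ S
      omega

theorem pf_RES (h1 : T_LFT) : T_RES := by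
  intro V E _ _ _ G A z G' A' φ hLf F' U r h hsym hF' hU hX1 hz X hXn hXu
  by_cases ha : (pre (Subtype.val : {x : V // x ≠ z} → V) X).Nonempty
  · by_cases hb : pre (Subtype.val : {x : V // x ≠ z} → V) X = univ
    · have h2 : Xᶜ = {z} := by
        ext v
        rw [mem_compl, mem_singleton]
        constructor
        · intro hv
          by_contra hcon
          apply hv
          have h3 : (⟨v, hcon⟩ : {x : V // x ≠ z}) ∈
              pre (Subtype.val : {x : V // x ≠ z} → V) X := by
            rw [hb]
            exact mem_univ _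
          exact (mem_pre _ _ _).1 h3
        · intro hv hvX
          apply hXu
          rw [eq_univ_iff_forall]
          intro w
          by_cases hw : w = z
          · rw [hw, ← hv]
            exact hvX
          · have h3 : (⟨w, hw⟩ : {x : V // x ≠ z}) ∈
                pre (Subtype.val : {x : V // x ≠ z} → V) X := by
              rw [hb]
              exact mem_univ _
            exact (mem_pre _ _ _).1 h3
      rw [← cn_compl, ← hsym X, h2]
      exact hz
    · have h2 := hX1 X ha hb
      obtain ⟨-, h3, -⟩ := h1 _ _ _ _ G A G' A' _ φ hLf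
      have h4 := h3 F' hF' X
      have h5 : cn G (A \ F'.biUnion φ) X ≤ cn G (A \ U) X :=
        cn_mono G (sdiff_subset_sdiff (Subset.refl A) hU) X
      omega
  · have h2 : X = {z} := by
      rw [not_nonempty_iff_eq_empty] at ha
      have h3 : ∀ v ∈ X, v = z := by
        intro v hv
        by_contra hcon
        have h4 : (⟨v, hcon⟩ : {x : V // x ≠ z}) ∈
            pre (Subtype.val : {x : V // x ≠ z} → V) X := (mem_pre _ _ _).2 hv
        rw [ha] at h4
        exact absurd h4 (notMem_empty _)
      obtain ⟨v, hv⟩ := hXn
      ext w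
      rw [mem_singleton]
      constructor
      · exact h3 w
      · intro hw
        rw [hw, ← h3 v hv]
        exact hv
    rw [h2]
    exact hz

theorem cn_single {V E : Type} [Fintype V] [DecidableEq V] [DecidableEq E] (G : Gr V E)
    {e : E} {v z : V} (h : Jn G e v z) (X : Finset V) : cn G {e} X = sep v z X := by
  unfold cn sep
  rw [filter_singleton]
  have h1 : Cr G X e ↔ (v ∈ X ∧ z ∉ X ∨ v ∉ X ∧ z ∈ X) := jn_cr h X
  by_cases h2 : (v ∈ X ∧ z ∉ X ∨ v ∉ X ∧ z ∈ X)
  · rw [if_pos (h1.2 h2), if_pos h2, card_singleton]
  · rw [if_neg (fun h => h2 (h1.1 h)), if_neg h2, card_empty]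

theorem pf_E0 : T_E0 := by
  intro V E _ _ _ G A r K v z e hEH hz
  obtain ⟨-, hvK, hzv, heA, hJ, -, hEc, -⟩ := hEH
  refine ⟨z, hz, hzv, ∅, empty_subset _, co_refl G ∅ z, ?_, ?_⟩
  · intro g hg
    exact absurd hg (notMem_empty g)
  · intro X hX hXu
    have h1 := hEc X hX hXu
    have h2 := cn_sdiff G (A := A) (F := {e}) (singleton_subset_iff.2 heA) X
    rw [cn_single G hJ X] at h2
    have h3 : insert e (∅ : Finset E) = {e} := by simp
    rw [h3, h2]
    exact h1

theorem filter_erase_card {I : Type} [DecidableEq I] (J : Finset I) (i : I) (hi : i ∈ J)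
    (q : I → Prop) [DecidablePred q] :
    (J.filter q).card = ((J.erase i).filter q).card + if q i then 1 else 0 := by
  have h1 : J = insert i (J.erase i) := (insert_erase hi).symm
  have h2 : (J.filter q).card = ((insert i (J.erase i)).filter q).card := by rw [← h1]
  rw [h2, filter_insert]
  split_ifs with h
  · rw [card_insert_of_notMem]
    simp
  · rfl

theorem pf_DT : T_DT := by
  intro V E I _ _ _ _ G A a b J c i hDH hi hab hrec
  obtain ⟨hc, hEc, hcard, hpar⟩ := hDH
  have h1 : DH G A a b (J.erase i) c := by
    refine ⟨hc, hEc, ?_, ?_⟩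
    · exact (card_le_card (erase_subset i J)).trans hcard
    · intro v
      have h2 := hpar v
      have h3 : tk a b J v = tk a b (J.erase i) v + ((if a i = v then 1 else 0) +
          (if a i = v then 1 else 0)) := by
        unfold tk
        rw [filter_erase_card J i hi (fun i => a i = v),
          filter_erase_card J i hi (fun i => b i = v), ← hab]
        ring
      rw [h3, ← add_assoc] at h2
      rw [Nat.even_add] at h2
      exact h2.2 ⟨_, rfl⟩
  obtain ⟨F, hF1, hF2, hF3⟩ := hrec h1
  refine ⟨fun j => if j = i then ∅ else F j, ?_, ?_, ?_⟩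
  · intro j hj
    by_cases hji : j = i
    · simp only [hji, if_true]
      exact empty_subset A
    · simp only [hji, if_false]
      exact hF1 j (mem_erase.2 ⟨hji, hj⟩)
  · intro j hj j' hj' hne
    by_cases hji : j = i
    · simp only [hji, if_true]
      exact disjoint_empty_left _
    · by_cases hji' : j' = i
      · simp only [hji', if_true]
        exact disjoint_empty_right _
      · simp only [hji, hji', if_false]
        exact hF2 j (mem_erase.2 ⟨hji, hj⟩) j' (mem_erase.2 ⟨hji', hj'⟩) hne
  · intro j hj
    by_cases hji : j = i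
    · rw [hji, hab]
      exact co_refl G _ _
    · simp only [hji, if_false]
      exact hF3 j (mem_erase.2 ⟨hji, hj⟩)

end Pool.Agent.H50.WE
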