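import Pool.Agent.H71.WE.Targets

/-!
# Rows SEP and GLU: separation functions and gluing
-/

set_option autoImplicit false

namespace Pool.Agent.H50.WE

open Finset Pool.Agent.H71.WE

theorem pf_SEP : T_SEP := by
  intro V _ _
  constructor
  · intro a b
    refine ⟨?_, ?_, ?_, ?_⟩
    · intro X
      unfold sep
      by_cases h1 : a ∈ X <;> by_cases h2 : b ∈ X <;> simp [h1, h2]
    · intro X Y
      unfold sep
      by_cases h1 : a ∈ X <;> by_cases h2 : b ∈ X <;> by_cases h3 : a ∈ Y <;>
        by_cases h4 : b ∈ Y <;> simp [h1, h2, h3, h4]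
    · intro X Y
      unfold sep
      by_cases h1 : a ∈ X <;> by_cases h2 : b ∈ X <;> by_cases h3 : a ∈ Y <;>
        by_cases h4 : b ∈ Y <;> simp [h1, h2, h3, h4]
    · intro X Y hXY
      have ha : a ∈ X → a ∉ Y := fun h => Finset.disjoint_left.1 hXY h
      have hb : b ∈ X → b ∉ Y := fun h => Finset.disjoint_left.1 hXY h
      unfold sep
      by_cases h1 : a ∈ X <;> by_cases h2 : b ∈ X <;> by_cases h3 : a ∈ Y <;>
        by_cases h4 : b ∈ Y <;> simp [h1, h2, h3, h4] <;> first
          | exact absurd h3 (ha h1)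
          | exact absurd h4 (hb h2)
          | decide
  · intro g h hg hh
    refine ⟨?_, ?_, ?_, ?_⟩
    · intro X
      change g Xᶜ + h Xᶜ = g X + h X
      rw [hg.sym, hh.sym]
    · intro X Y
      have h1 := hg.sub X Y
      have h2 := hh.sub X Y
      change g (X ∩ Y) + h (X ∩ Y) + (g (X ∪ Y) + h (X ∪ Y)) ≤ g X + h X + (g Y + h Y)
      omega
    · intro X Y
      have h1 := hg.pos X Y
      have h2 := hh.pos X Y
      change g (X \ Y) + h (X \ Y) + (g (Y \ X) + h (Y \ X)) ≤ g X + h X + (g Y + h Y)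
      omega
    · intro X Y hXY
      have h1 := hg.par X Y hXY
      have h2 := hh.par X Y hXY
      change Even (g X + h X + (g Y + h Y) + (g (X ∪ Y) + h (X ∪ Y)))
      have h3 : g X + h X + (g Y + h Y) + (g (X ∪ Y) + h (X ∪ Y)) =
        (g X + g Y + g (X ∪ Y)) + (h X + h Y + h (X ∪ Y)) := by ring
      rw [h3]
      exact h1.add h2

theorem pf_GLU : T_GLU := by
  intro V _ _ g hg r m S hr hm hrm hS hSu h1 h2 hgS X hX hXu
  by_cases ha : X ⊆ S
  · by_cases hE : X = S
    · rw [hE]
      exact h2 S (Subset.refl S) hSu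
    · exact hrm.trans (h1 X hX ha hE)
  by_cases hb : S ⊆ X
  · exact h2 X hb hXu
  by_cases hc : Disjoint X S
  · rw [← hg.sym X]
    apply h2
    · intro v hv
      rw [mem_compl]
      intro hvX
      exact Finset.disjoint_left.1 hc hvX hv
    · intro h
      obtain ⟨v, hv⟩ := hX
      have : v ∈ Xᶜ := by rw [h]; exact mem_univ v
      exact (mem_compl.1 this) hv
  have hmeet : (X ∩ S).Nonempty := by
    rw [Finset.not_disjoint_iff_nonempty_inter] at hc
    exact hc
  by_cases hd : X ∪ S = univ
  · rw [← hg.sym X]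
    refine hrm.trans (h1 Xᶜ ?_ ?_ ?_)
    · rw [nonempty_iff_ne_empty]
      intro h
      apply hXu
      rw [← compl_compl X, h, compl_empty]
    · intro v hv
      have h3 : v ∈ X ∪ S := by rw [hd]; exact mem_univ v
      rcases mem_union.1 h3 with h4 | h4
      · exact absurd h4 (mem_compl.1 hv)
      · exact h4
    · intro h
      obtain ⟨v, hv⟩ := hmeet
      rw [mem_inter] at hv
      have : v ∈ Xᶜ := by rw [h]; exact hv.2
      exact (mem_compl.1 this) hv.1
  have e1 : m ≤ g (X ∩ S) := by
    apply h1 _ hmeet inter_subset_right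
    intro h
    apply hb
    rw [← h]
    exact inter_subset_left
  have e2 : m ≤ g (S \ X) := by
    apply h1 _ _ sdiff_subset
    · intro h
      obtain ⟨v, hv⟩ := hmeet
      rw [mem_inter] at hv
      have : v ∈ S \ X := by rw [h]; exact hv.2
      exact (mem_sdiff.1 this).2 hv.1
    · rw [sdiff_nonempty]
      exact hb
  have e3 : r ≤ g (X ∪ S) := h2 _ subset_union_right hd
  have e4 : r ≤ g (X \ S) := by
    rw [← hg.sym]
    apply h2
    · intro v hv
      rw [mem_compl, mem_sdiff]
      intro h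
      exact h.2 hv
    · intro h
      apply ha
      have h3 : X \ S = ∅ := by
        rw [← compl_compl (X \ S), h, compl_univ]
      rwa [sdiff_eq_empty_iff_subset] at h3
  have e5 := hg.sub X S
  have e6 := hg.pos X S
  have e7 := hg.par (X ∩ S) (X \ S) (by
    rw [Finset.disjoint_left]
    intro v hv hv'
    exact (mem_sdiff.1 hv').2 (mem_inter.1 hv).2)
  have e8 : X ∩ S ∪ X \ S = X := by
    rw [union_comm]
    exact sdiff_union_inter X S
  rw [e8] at e7
  obtain ⟨a, ha'⟩ := hr
  obtain ⟨b, hb'⟩ := hm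
  obtain ⟨c, hc'⟩ := e7
  by_contra hcon
  rw [not_le] at hcon
  omega

end Pool.Agent.H50.WE
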